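import Mathlib

namespace Pool.Agent.Results.MP_ae2f9f_co.Least

open Finset

/-- cells `(a, b)`; two cells are adjacent when they share a side -/
def grid : SimpleGraph (ℤ × ℤ) where
  Adj p q := |p.1 - q.1| + |p.2 - q.2| = 1
  symm := ⟨fun p q h => by rw [abs_sub_comm q.1, abs_sub_comm q.2]; exact h⟩
  loopless := ⟨fun p h => by simp at h⟩

/-- a polyomino: a (nonempty) edge-connected finite set of cells -/
def IsPolyomino (P : Finset (ℤ × ℤ)) : Prop := (grid.induce (P : Set (ℤ × ℤ))).Connected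

/-- property (S): no nonempty row and no nonempty column is an interval of integers -/
def PropS (P : Finset (ℤ × ℤ)) : Prop :=
  (∀ b : ℤ, {a | (a, b) ∈ P}.Nonempty → ¬ {a | (a, b) ∈ P}.OrdConnected) ∧
  (∀ a : ℤ, {b | (a, b) ∈ P}.Nonempty → ¬ {b | (a, b) ∈ P}.OrdConnected)

lemma gap {s : Set ℤ} (h : ¬ s.OrdConnected) :
    ∃ x y z, x ∈ s ∧ y ∉ s ∧ z ∈ s ∧ x < y ∧ y < z := by
  rw [Set.ordConnected_def] at h
  push Not at h
  obtain ⟨x, hx, z, hz, h⟩ := h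
  obtain ⟨y, hy, hn⟩ := Set.not_subset.1 h
  refine ⟨x, y, z, hx, hn, hz, lt_of_le_of_ne hy.1 ?_, lt_of_le_of_ne hy.2 ?_⟩
  · rintro rfl; exact hn hx
  · rintro rfl; exact hn hz

lemma ivt {P : Finset (ℤ × ℤ)} (h : IsPolyomino P) (f : ℤ × ℤ → ℤ)
    (hf : ∀ p q, grid.Adj p q → f q ≤ f p + 1) {p q : ℤ × ℤ} (hp : p ∈ P) (hq : q ∈ P) {y : ℤ}
    (h1 : f p ≤ y) (h2 : y ≤ f q) : y ∈ P.image f := by
  obtain ⟨w⟩ := h.preconnected ⟨p, hp⟩ ⟨q, hq⟩
  have : ∀ (a b : (P : Set (ℤ × ℤ))) (w : (grid.induce (P : Set (ℤ × ℤ))).Walk a b),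
      f a ≤ y → y ≤ f b → y ∈ P.image f := by
    intro a b w
    induction w with
    | @nil u => intro a1 a2; exact mem_image.2 ⟨u, u.2, le_antisymm a1 a2⟩
    | @cons u v _ hadj _ ih =>
      intro a1 a2
      rcases eq_or_lt_of_le a1 with e | l
      · exact mem_image.2 ⟨u, u.2, e⟩
      · have := hf u v hadj
        exact ih (by omega) a2
  exact this _ _ w h1 h2

/-- a block end between a cell and a later empty place -/
lemma ends (s : ℤ → Prop) {x y : ℤ} (hx : s x) (hy : ¬ s y) (h : x < y) :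
    ∃ t, x ≤ t ∧ t < y ∧ s t ∧ ¬ s (t + 1) := by
  induction y, h using Int.le_induction with
  | base => exact ⟨x, le_rfl, by omega, hx, hy⟩
  | succ n hn ih =>
    by_cases h : s n
    · exact ⟨n, by omega, by omega, h, hy⟩
    · obtain ⟨t, a, b, c⟩ := ih h
      exact ⟨t, a, by omega, c⟩

lemma two_ends (P : Finset (ℤ × ℤ))
    (h : ∀ b ∈ P.image Prod.snd, ∃ x y z, (x, b) ∈ P ∧ (y, b) ∉ P ∧ (z, b) ∈ P ∧ x < y ∧ y < z) :
    2 * (P.image Prod.snd).card + (P.filter (fun p => (p.1 + 1, p.2) ∈ P)).card ≤ P.card := by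
  have h1 := card_filter_add_card_filter_not (s := P) (fun p => (p.1 + 1, p.2) ∈ P)
  have h2 : (P.filter (fun p => ¬ (p.1 + 1, p.2) ∈ P)).card
      = ∑ b ∈ P.image Prod.snd,
        ((P.filter (fun p => ¬ (p.1 + 1, p.2) ∈ P)).filter (fun p => p.2 = b)).card :=
    card_eq_sum_card_fiberwise (fun p hp => mem_image_of_mem _ (mem_filter.1 hp).1)
  have h3 : ∀ b ∈ P.image Prod.snd,
      2 ≤ ((P.filter (fun p => ¬ (p.1 + 1, p.2) ∈ P)).filter (fun p => p.2 = b)).card := by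
    intro b hb
    obtain ⟨x, y, z, hx, hy, hz, h4, h5⟩ := h b hb
    obtain ⟨M, hM⟩ := (P.image Prod.fst).bddAbove
    have hM' : ∀ a, (a, b) ∈ P → a ≤ M := fun a ha => hM (mem_coe.2 (mem_image_of_mem _ ha))
    obtain ⟨t, -, a2, a3, a4⟩ := ends (fun a => (a, b) ∈ P) hx hy h4
    obtain ⟨t', b1, -, b3, b4⟩ := ends (fun a => (a, b) ∈ P) (y := M + 1) hz
      (fun h => by have := hM' _ h; omega) (by have := hM' _ hz; omega)
    exact one_lt_card.2 ⟨(t, b), by simp [a3, a4], (t', b), by simp [b3, b4], by simp; omega⟩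
  have h4 := sum_le_sum h3
  rw [sum_const, smul_eq_mul] at h4
  omega

lemma missing (P : Finset (ℤ × ℤ)) (hne : P.Nonempty)
    (h : ∀ b ∈ P.image Prod.snd, ∃ x y z, (x, b) ∈ P ∧ (y, b) ∉ P ∧ (z, b) ∈ P ∧ x < y ∧ y < z ∧
      y ∈ P.image Prod.fst)
    (h' : ∀ a ∈ P.image Prod.fst, ∃ y, (a, y) ∉ P ∧ y ∈ P.image Prod.snd) :
    P.card + (P.image Prod.snd).card + 2
      ≤ (P.image Prod.fst).card * (P.image Prod.snd).card := by
  choose! x y z h1 h2 h3 h4 h5 h6 using h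
  choose! g g1 g2 using h'
  have hne' : (P.image Prod.fst).Nonempty := hne.image _
  set lo := (P.image Prod.fst).min' hne'
  set hi := (P.image Prod.fst).max' hne'
  have hlo : lo ∈ P.image Prod.fst := min'_mem _ _
  have hhi : hi ∈ P.image Prod.fst := max'_mem _ _
  have k : ∀ b ∈ P.image Prod.snd, lo < y b ∧ y b < hi := by
    intro b hb
    have a1 : lo ≤ x b := min'_le _ _ (mem_image_of_mem Prod.fst (h1 b hb))
    have a2 : z b ≤ hi := le_max' _ _ (mem_image_of_mem Prod.fst (h3 b hb))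
    have := h4 b hb
    have := h5 b hb
    omega
  obtain ⟨b0, hb0⟩ := hne.image Prod.snd
  have hlh : lo < hi := by have := k b0 hb0; omega
  let Q := (P.image Prod.snd).image (fun b => (y b, b))
  have hQ : Q.card = (P.image Prod.snd).card :=
    card_image_of_injective _ (fun a b h => (Prod.ext_iff.1 h).2)
  have n1 : (lo, g lo) ∉ Q := by
    intro hh
    obtain ⟨b, hb, e⟩ := mem_image.1 hh
    have := k b hb
    have := (Prod.ext_iff.1 e).1
    simp only at this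
    omega
  have n2 : (hi, g hi) ∉ insert (lo, g lo) Q := by
    intro hh
    rcases mem_insert.1 hh with e | hh
    · have := (Prod.ext_iff.1 e).1
      simp only at this
      omega
    · obtain ⟨b, hb, e⟩ := mem_image.1 hh
      have := k b hb
      have := (Prod.ext_iff.1 e).1
      simp only at this
      omega
  have hd : Disjoint P (insert (hi, g hi) (insert (lo, g lo) Q)) := by
    rw [disjoint_right]
    intro p hp
    rcases mem_insert.1 hp with rfl | hp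
    · exact g1 _ hhi
    rcases mem_insert.1 hp with rfl | hp
    · exact g1 _ hlo
    obtain ⟨b, hb, rfl⟩ := mem_image.1 hp
    exact h2 b hb
  have hs : P ∪ insert (hi, g hi) (insert (lo, g lo) Q)
      ⊆ (P.image Prod.fst) ×ˢ (P.image Prod.snd) := by
    intro p hp
    rw [mem_product]
    rcases mem_union.1 hp with hp | hp
    · exact ⟨mem_image_of_mem _ hp, mem_image_of_mem _ hp⟩
    rcases mem_insert.1 hp with rfl | hp
    · exact ⟨hhi, g2 _ hhi⟩
    rcases mem_insert.1 hp with rfl | hp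
    · exact ⟨hlo, g2 _ hlo⟩
    obtain ⟨b, hb, rfl⟩ := mem_image.1 hp
    exact ⟨h6 b hb, hb⟩
  have := card_le_card hs
  rw [card_union_of_disjoint hd, card_insert_of_notMem n2, card_insert_of_notMem n1, hQ,
    card_product] at this
  omega

lemma edges {P : Finset (ℤ × ℤ)} (h : IsPolyomino P) :
    P.card ≤ (P.filter (fun p => (p.1 + 1, p.2) ∈ P)).card
      + (P.filter (fun p => (p.1, p.2 + 1) ∈ P)).card + 1 := by
  classical
  have h1 := h.card_vert_le_card_edgeSet_add_one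
  have h2 : Nat.card (P : Set (ℤ × ℤ)) = P.card := by simp
  let T : Finset (Sym2 (ℤ × ℤ)) :=
    (P.filter (fun p => (p.1 + 1, p.2) ∈ P)).image (fun p => s(p, (p.1 + 1, p.2))) ∪
      (P.filter (fun p => (p.1, p.2 + 1) ∈ P)).image (fun p => s(p, (p.1, p.2 + 1)))
  have h3 : Nat.card (grid.induce (P : Set (ℤ × ℤ))).edgeSet ≤ T.card := by
    rw [Nat.card_coe_set_eq, ← Set.ncard_coe_finset]
    refine Set.ncard_le_ncard_of_injOn (Sym2.map Subtype.val) ?_
      (Sym2.map.injective Subtype.val_injective).injOn (finite_toSet _)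
    intro e he
    induction e using Sym2.ind with
    | h u v =>
      obtain ⟨⟨a, b⟩, hu⟩ := u
      obtain ⟨⟨c, d⟩, hv⟩ := v
      have hadj : |a - c| + |b - d| = 1 := he
      have hu : (a, b) ∈ P := hu
      have hv : (c, d) ∈ P := hv
      simp only [T, Sym2.map_mk, coe_union, coe_image, coe_filter, Set.mem_union, Set.mem_image,
        Set.mem_setOf_eq]
      have : (c = a + 1 ∧ d = b) ∨ (a = c + 1 ∧ d = b) ∨ (c = a ∧ d = b + 1) ∨
          (c = a ∧ b = d + 1) := by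
        rcases abs_cases (a - c) with h | h <;> rcases abs_cases (b - d) with h' | h' <;> omega
      rcases this with ⟨rfl, rfl⟩ | ⟨rfl, rfl⟩ | ⟨rfl, rfl⟩ | ⟨rfl, rfl⟩
      · exact Or.inl ⟨_, ⟨hu, hv⟩, rfl⟩
      · exact Or.inl ⟨_, ⟨hv, hu⟩, Sym2.eq_swap⟩
      · exact Or.inr ⟨_, ⟨hu, hv⟩, rfl⟩
      · exact Or.inr ⟨_, ⟨hv, hu⟩, Sym2.eq_swap⟩
  have h4 : T.card ≤ (P.filter (fun p => (p.1 + 1, p.2) ∈ P)).card
      + (P.filter (fun p => (p.1, p.2 + 1) ∈ P)).card :=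
    (card_union_le _ _).trans (add_le_add card_image_le card_image_le)
  omega

lemma lower {P : Finset (ℤ × ℤ)} (h : IsPolyomino P) (hS : PropS P) : 21 ≤ P.card := by
  have hne : P.Nonempty := by
    obtain ⟨p⟩ := h.nonempty
    exact ⟨p.1, p.2⟩
  have f1 : ∀ p q, grid.Adj p q → q.1 ≤ p.1 + 1 := by
    intro p q h
    have h : |p.1 - q.1| + |p.2 - q.2| = 1 := h
    rcases abs_cases (p.1 - q.1) with h | h <;> rcases abs_cases (p.2 - q.2) with h' | h' <;> omega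
  have f2 : ∀ p q, grid.Adj p q → q.2 ≤ p.2 + 1 := by
    intro p q h
    have h : |p.1 - q.1| + |p.2 - q.2| = 1 := h
    rcases abs_cases (p.1 - q.1) with h | h <;> rcases abs_cases (p.2 - q.2) with h' | h' <;> omega
  have R : ∀ b ∈ P.image Prod.snd, ∃ x y z, (x, b) ∈ P ∧ (y, b) ∉ P ∧ (z, b) ∈ P ∧ x < y ∧
      y < z ∧ y ∈ P.image Prod.fst := by
    intro b hb
    obtain ⟨p, hp, rfl⟩ := mem_image.1 hb
    obtain ⟨x, y, z, a1, a2, a3, a4, a5⟩ := gap (hS.1 p.2 ⟨p.1, hp⟩)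
    exact ⟨x, y, z, a1, a2, a3, a4, a5, ivt h Prod.fst f1 a1 a3 a4.le a5.le⟩
  have C : ∀ b ∈ P.image Prod.fst, ∃ x y z, (b, x) ∈ P ∧ (b, y) ∉ P ∧ (b, z) ∈ P ∧ x < y ∧
      y < z ∧ y ∈ P.image Prod.snd := by
    intro b hb
    obtain ⟨p, hp, rfl⟩ := mem_image.1 hb
    obtain ⟨x, y, z, a1, a2, a3, a4, a5⟩ := gap (hS.2 p.1 ⟨p.2, hp⟩)
    exact ⟨x, y, z, a1, a2, a3, a4, a5, ivt h Prod.snd f2 a1 a3 a4.le a5.le⟩
  let Q := P.image Prod.swap
  have mQ : ∀ a b, (a, b) ∈ Q ↔ (b, a) ∈ P := by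
    intro a b
    simp only [Q, mem_image]
    constructor
    · rintro ⟨p, hp, e⟩
      have : p = (b, a) := by rw [← Prod.swap_swap p, e]; rfl
      exact this ▸ hp
    · exact fun h => ⟨_, h, rfl⟩
  have cQ : Q.card = P.card := card_image_of_injective _ Prod.swap_injective
  have Q1 : Q.image Prod.fst = P.image Prod.snd := by rw [image_image]; rfl
  have Q2 : Q.image Prod.snd = P.image Prod.fst := by rw [image_image]; rfl
  have t1 := two_ends P (fun b hb => by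
    obtain ⟨x, y, z, a1, a2, a3, a4, a5, -⟩ := R b hb; exact ⟨x, y, z, a1, a2, a3, a4, a5⟩)
  have t2 := two_ends Q (fun b hb => by
    obtain ⟨x, y, z, a1, a2, a3, a4, a5, -⟩ := C b (Q2 ▸ hb)
    exact ⟨x, y, z, (mQ _ _).2 a1, fun h => a2 ((mQ _ _).1 h), (mQ _ _).2 a3, a4, a5⟩)
  have t3 : (P.filter (fun p => (p.1, p.2 + 1) ∈ P)).card
      ≤ (Q.filter (fun p => (p.1 + 1, p.2) ∈ Q)).card := by
    apply card_le_card_of_injOn Prod.swap _ Prod.swap_injective.injOn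
    intro p hp
    have hp := mem_filter.1 (mem_coe.1 hp)
    exact mem_coe.2 (mem_filter.2 ⟨mem_image_of_mem _ hp.1, (mQ _ _).2 hp.2⟩)
  have m1 := missing P hne R (fun a ha => by
    obtain ⟨x, y, z, -, a2, -, -, -, a6⟩ := C a ha; exact ⟨y, a2, a6⟩)
  have m2 := missing Q (hne.image _) (fun b hb => by
      obtain ⟨x, y, z, a1, a2, a3, a4, a5, a6⟩ := C b (Q2 ▸ hb)
      exact ⟨x, y, z, (mQ _ _).2 a1, fun h => a2 ((mQ _ _).1 h), (mQ _ _).2 a3, a4, a5, Q1 ▸ a6⟩)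
    (fun a ha => by
      obtain ⟨x, y, z, -, a2, -, -, -, a6⟩ := R a (Q1 ▸ ha)
      exact ⟨y, fun h => a2 ((mQ _ _).1 h), Q2 ▸ a6⟩)
  have e := edges h
  rw [Q2, cQ] at t2
  rw [Q1, Q2, cQ] at m2
  have hpos := hne.card_pos
  generalize (P.image Prod.fst).card = c at *
  generalize (P.image Prod.snd).card = r at *
  by_contra hlt
  have hr : r ≤ 10 := by omega
  have hc : c ≤ 10 := by omega
  interval_cases r <;> interval_cases c <;> omega

def L : List (ℤ × ℤ) := [(0, 0), (0, 1), (1, 1), (2, 1), (1, 2), (2, 0), (1, 3), (3, 0), (0, 3),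
  (4, 0), (0, 4), (4, 1), (4, 2), (3, 2), (3, 3), (3, 4), (4, 4), (2, 4), (4, 5), (2, 5), (1, 5)]

lemma conn : IsPolyomino L.toFinset := by
  have key : ∀ p ∈ L, p = (0, 0) ∨
      ∃ q ∈ L, |q.1 - p.1| + |q.2 - p.2| = 1 ∧ L.idxOf q < L.idxOf p := by decide +kernel
  have h0 : ((0, 0) : ℤ × ℤ) ∈ (L.toFinset : Set (ℤ × ℤ)) := by simp [L]
  unfold IsPolyomino
  rw [SimpleGraph.connected_iff_exists_forall_reachable]
  refine ⟨⟨(0, 0), h0⟩, ?_⟩
  have : ∀ k, ∀ w : (L.toFinset : Set (ℤ × ℤ)), L.idxOf w.1 = k →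
      (grid.induce (L.toFinset : Set (ℤ × ℤ))).Reachable ⟨(0, 0), h0⟩ w := by
    intro k
    induction k using Nat.strong_induction_on with
    | _ k ih =>
      intro w hw
      rcases key w.1 (List.mem_toFinset.1 (mem_coe.1 w.2)) with e | ⟨q, hq, a, l⟩
      · have : w = ⟨(0, 0), h0⟩ := Subtype.ext e
        rw [this]
      · exact (ih _ (hw ▸ l) ⟨q, by simpa using hq⟩ rfl).trans (SimpleGraph.Adj.reachable a)
  exact fun w => this _ w rfl

lemma propS : PropS L.toFinset := by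
  have k1 : ∀ p ∈ L, ∃ q ∈ L, ∃ r ∈ L, ∃ y ∈ [(1 : ℤ), 2, 3, 4], q.2 = p.2 ∧ r.2 = p.2 ∧
      q.1 ≤ y ∧ y ≤ r.1 ∧ (y, p.2) ∉ L := by decide +kernel
  have k2 : ∀ p ∈ L, ∃ q ∈ L, ∃ r ∈ L, ∃ y ∈ [(1 : ℤ), 2, 3, 4], q.1 = p.1 ∧ r.1 = p.1 ∧
      q.2 ≤ y ∧ y ≤ r.2 ∧ (p.1, y) ∉ L := by decide +kernel
  constructor
  · rintro b ⟨a, ha⟩ h
    obtain ⟨⟨q1, q2⟩, hq, ⟨r1, r2⟩, hr, y, -, e1, e2, l1, l2, hn⟩ := k1 (a, b) (by simpa using ha)
    simp only at e1 e2 l1 l2 hn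
    subst e1
    subst e2
    exact hn (by simpa using h.out (x := q1) (by simpa using hq) (y := r1) (by simpa using hr) ⟨l1, l2⟩)
  · rintro b ⟨a, ha⟩ h
    obtain ⟨⟨q1, q2⟩, hq, ⟨r1, r2⟩, hr, y, -, e1, e2, l1, l2, hn⟩ := k2 (b, a) (by simpa using ha)
    simp only at e1 e2 l1 l2 hn
    subst e1
    subst e2
    exact hn (by simpa using h.out (x := q2) (by simpa using hq) (y := r2) (by simpa using hr) ⟨l1, l2⟩)

theorem result :
    IsLeast {n : ℕ | ∃ P : Finset (ℤ × ℤ), P.card = n ∧ IsPolyomino P ∧ PropS P} 21 :=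
  ⟨⟨L.toFinset, by decide +kernel, conn, propS⟩, by
    rintro n ⟨P, rfl, h1, h2⟩
    exact lower h1 h2⟩

end Pool.Agent.Results.MP_ae2f9f_co.Least
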